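import Pool.Agent.Helper68.LM.Geo

/-!
Module DOM of project LM (MP_cb927e_an): the Hausdorff measure of an arc is dominated by twice the
arc measure.
-/

set_option autoImplicit false

open MeasureTheory Set Filter Topology
open scoped ENNReal NNReal RealInnerProductSpace

namespace Pool.Agent.Helper60.LM

open Pool.Agent.Helper68.LM

/-- a function of slope at most one is 1-Lipschitz up to the end points -/
lemma dom_lip (a b : ℝ) (φ : ℝ → ℝ) (hφ : ContinuousOn φ (Icc a b))
    (hφ2 : ContDiffOn ℝ 2 φ (Ioo a b)) (h : ∀ t ∈ Ioo a b, |deriv φ t| ≤ 1) :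
    ∀ s ∈ Icc a b, ∀ t ∈ Icc a b, |φ s - φ t| ≤ |s - t| := by
  have key : ∀ s ∈ Icc a b, ∀ t ∈ Icc a b, s < t → |φ s - φ t| ≤ |s - t| := by
    intro s hs t ht hst
    have hsub : Icc s t ⊆ Icc a b := Icc_subset_Icc hs.1 ht.2
    have hsub2 : Ioo s t ⊆ Ioo a b := Ioo_subset_Ioo hs.1 ht.2
    obtain ⟨x, hx, hxe⟩ := exists_deriv_eq_slope φ hst (hφ.mono hsub)
      ((hφ2.differentiableOn (by norm_num)).mono hsub2)
    have h1 := h x (hsub2 hx)
    rw [hxe, abs_div] at h1
    have hpos : 0 < |t - s| := abs_pos.2 (by linarith)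
    rw [div_le_one hpos] at h1
    rw [abs_sub_comm (φ s), abs_sub_comm s]
    exact h1
  intro s hs t ht
  rcases lt_trichotomy s t with hst | hst | hst
  · exact key s hs t ht hst
  · subst hst
    simp
  · rw [abs_sub_comm (φ s), abs_sub_comm s]
    exact key t ht s hs hst

theorem hDOM : StDOM := by
  intro a b κ G hG B hB
  obtain ⟨hab, c, u, v, φ, hu, hv, huv, hGe, hφ, hφ2, hφd⟩ := hG
  have hlip := dom_lip a b φ hφ hφ2 (fun t ht => (hφd t ht).1)
  have hGL : LipschitzOnWith 2 G (Icc a b) := by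
    refine LipschitzOnWith.of_dist_le_mul fun s hs t ht => ?_
    rw [dist_eq_norm, Real.dist_eq]
    have h1 : G s - G t = (s - t) • u + (φ s - φ t) • v := by
      rw [hGe s, hGe t, sub_smul, sub_smul]
      abel
    rw [h1]
    refine (norm_add_le _ _).trans ?_
    rw [norm_smul, norm_smul, hu, hv, Real.norm_eq_abs, Real.norm_eq_abs, mul_one, mul_one]
    have h2 := hlip s hs t ht
    have h3 : ((2 : ℝ≥0) : ℝ) = 2 := rfl
    rw [h3]
    linarith
  have hGc : AEMeasurable G (volume.restrict (Icc a b)) :=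
    hGL.continuousOn.aemeasurable measurableSet_Icc
  have hval : arcMeasure a b G B = volume (Icc a b ∩ G ⁻¹' B) := by
    unfold arcMeasure
    rw [Measure.map_apply_of_aemeasurable hGc hB, Measure.restrict_apply' measurableSet_Icc,
      inter_comm]
  rw [hval, ← image_inter_preimage]
  have h4 := (hGL.mono (inter_subset_left (s := Icc a b) (t := G ⁻¹' B))).hausdorffMeasure_image_le
    (zero_le_one (α := ℝ))
  rw [hausdorffMeasure_real, ENNReal.rpow_one] at h4
  exact h4

end Pool.Agent.Helper60.LM
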